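import Pool.Agent.N718.GC.Stm

/-!
# Project GC (helper718), part RESL (helper451): almost all families have a prime which changes the symbols

The first three lemmas are copied from `Pool/Agent/N314/DC/PADC.lean` (helper314).
-/

set_option autoImplicit false

namespace Pool.Agent.N451.GC

open Finset Pool.Agent.N718.DC Pool.Agent.N718.GC

theorem quot_inj {H q : ℕ} {u v : ℤ} (hu : -(H : ℤ) ≤ u) (hv : -(H : ℤ) ≤ v)
    (hd : (q : ℤ) ∣ u - v) (h : (u + H).toNat / q = (v + H).toNat / q) : u = v := by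
  have hu' : ((u + H).toNat : ℤ) = u + H := Int.toNat_of_nonneg (by linarith)
  have hv' : ((v + H).toNat : ℤ) = v + H := Int.toNat_of_nonneg (by linarith)
  have hm : (u + H).toNat % q = (v + H).toNat % q := by
    have h0 : ((u + H).toNat : ℤ) % q = ((v + H).toNat : ℤ) % q := by
      rw [hu', hv']
      have h2 : v + H ≡ u + H [ZMOD q] := by
        rw [Int.modEq_iff_dvd]
        have : u + H - (v + H) = u - v := by ring
        rw [this]
        exact hd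
      exact h2.symm
    exact_mod_cast h0
  have h1 := Nat.div_add_mod (u + H).toNat q
  have h2 := Nat.div_add_mod (v + H).toNat q
  rw [h, hm, h2] at h1
  have h3 : ((v + H).toNat : ℤ) = ((u + H).toNat : ℤ) := by exact_mod_cast h1
  rw [hu', hv'] at h3
  linarith

theorem quot_lt {H q : ℕ} {u : ℤ} (hu : u ≤ H) : (u + H).toNat / q < 2 * H / q + 1 := by
  apply Nat.lt_succ_of_le
  apply Nat.div_le_div_right
  omega

theorem mem_BXI {ι : Type} [Fintype ι] [DecidableEq ι] {e : ι → ℕ} {H : ℕ}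
    {c : (k : ι) → Fin (e k + 2) → ℤ} :
    c ∈ BXI e H ↔ ∀ k j, -(H : ℤ) ≤ c k j ∧ c k j ≤ H := by
  unfold BXI
  simp only [Fintype.mem_piFinset, Finset.mem_Icc]

theorem fm_congr {e : ℕ} (q : ℤ) (c c' : Fin (e + 2) → ℤ) (u v : ℤ) (h : ∀ j, q ∣ c j - c' j) :
    q ∣ fm c u v - fm c' u v := by
  unfold fm
  rw [← Finset.sum_sub_distrib]
  apply Finset.dvd_sum
  intro j _
  have h2 : c j * u ^ (e + 1 - (j : ℕ)) * v ^ (j : ℕ) - c' j * u ^ (e + 1 - (j : ℕ)) * v ^ (j : ℕ) =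
      (c j - c' j) * (u ^ (e + 1 - (j : ℕ)) * v ^ (j : ℕ)) := by ring
  rw [h2]
  exact Dvd.dvd.mul_right (h j) _

theorem dbl_congr {m : ℕ} {e : Fin m → ℕ} (c c' : (i : Fin m) → Fin (e i + 2) → ℤ) (i i' : Fin m)
    (l : ℕ) (h : ∀ k j, (l : ℤ) ^ 2 ∣ c k j - c' k j) (hd : Dbl c i i' l) : Dbl c' i i' l := by
  obtain ⟨u, v, h1, h2⟩ := hd
  have a : ∀ k, (l : ℤ) ^ 2 ∣ fm (c k) u v - fm (c' k) u v := fun k => fm_congr _ _ _ _ _ (h k)
  have b : ∀ k, (l : ℤ) ∣ fm (c k) u v - fm (c' k) u v := fun k =>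
    (dvd_pow_self (l : ℤ) (by norm_num)).trans (a k)
  refine ⟨u, v, fun k => ?_, fun k hk => h2 k ?_⟩
  · rw [← h1 k]
    exact (dvd_iff_dvd_of_dvd_sub (b k)).symm
  · exact (dvd_iff_dvd_of_dvd_sub (a k)).mpr hk

open Classical in
/-- the number of the families with prescribed properties modulo the squares of the primes of `D` -/
theorem count_crt {m : ℕ} (e : Fin m → ℕ) (D : Finset ℕ) (hD : ∀ l ∈ D, l.Prime)
    (P : ℕ → ((i : Fin m) → Fin (e i + 2) → ℤ) → Prop)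
    (hP : ∀ l ∈ D, ∀ c c', (∀ k j, (l : ℤ) ^ 2 ∣ c k j - c' k j) → P l c → P l c') (H : ℕ) :
    ((BXI e H).filter (fun c => ∀ l ∈ D, P l c)).card ≤
      (∏ l ∈ D, ((Fintype.piFinset (fun k : Fin m => Fintype.piFinset (fun _ : Fin (e k + 2) =>
        Ico (0 : ℤ) ((l : ℤ) ^ 2)))).filter (fun c => P l c)).card) *
        (2 * H / (∏ l ∈ D, l ^ 2) + 1) ^ ncI e := by
  obtain ⟨Q, hQ⟩ : ∃ Q, Q = ∏ l ∈ D, l ^ 2 := ⟨_, rfl⟩
  rw [← hQ]
  obtain ⟨B, hB⟩ : ∃ B : ℕ → Finset ((i : Fin m) → Fin (e i + 2) → ℤ), B = fun l : ℕ =>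
    (Fintype.piFinset (fun k : Fin m => Fintype.piFinset (fun _ : Fin (e k + 2) =>
        Ico (0 : ℤ) ((l : ℤ) ^ 2)))).filter (fun c => P l c) := ⟨_, rfl⟩
  have hBm : ∀ l c, c ∈ B l ↔ (∀ k j, 0 ≤ c k j ∧ c k j < (l : ℤ) ^ 2) ∧ P l c := by
    intro l c
    rw [hB]
    simp only [mem_filter, Fintype.mem_piFinset, mem_Ico]
  obtain ⟨T2, hT2⟩ : ∃ T2 : Finset ((i : Fin m) → Fin (e i + 2) → ℕ), T2 =
    Fintype.piFinset (fun k : Fin m => Fintype.piFinset (fun _ : Fin (e k + 2) =>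
      range (2 * H / Q + 1))) := ⟨_, rfl⟩
  have hT2c : T2.card = (2 * H / Q + 1) ^ ncI e := by
    rw [hT2, Fintype.card_piFinset]
    unfold ncI
    rw [← Finset.prod_pow_eq_pow_sum]
    refine Finset.prod_congr rfl fun k _ => ?_
    rw [Fintype.card_piFinset, Finset.prod_const, card_range, Finset.card_univ, Fintype.card_fin]
  obtain ⟨T1, hT1⟩ : ∃ T1 : Finset ((l : D) → (i : Fin m) → Fin (e i + 2) → ℤ),
    T1 = Fintype.piFinset (fun l : D => B (l : ℕ)) := ⟨_, rfl⟩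
  have hT1c : T1.card = ∏ l ∈ D, (B l).card := by
    rw [hT1, Fintype.card_piFinset]
    exact Finset.prod_coe_sort D (fun l => (B l).card)
  have e0 : (∏ l ∈ D, ((Fintype.piFinset (fun k : Fin m => Fintype.piFinset (fun _ : Fin (e k + 2) =>
        Ico (0 : ℤ) ((l : ℤ) ^ 2)))).filter (fun c => P l c)).card) = T1.card := by
    rw [hT1c, hB]
  rw [e0, ← hT2c, ← Finset.card_product]
  apply Finset.card_le_card_of_injOn (fun c : (i : Fin m) → Fin (e i + 2) → ℤ =>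
    ((fun l : D => fun k j => c k j % ((l : ℕ) : ℤ) ^ 2), fun k j => (c k j + (H : ℤ)).toNat / Q))
  · intro c hc
    rw [mem_coe, mem_filter] at hc
    rw [mem_coe, mem_product]
    constructor
    · rw [hT1, Fintype.mem_piFinset]
      intro l
      rw [hBm]
      refine ⟨?_, hP l l.2 c _ ?_ (hc.2 l l.2)⟩
      · intro k j
        have h1 : (0 : ℤ) < ((l : ℕ) : ℤ) ^ 2 := by
          have := (hD l l.2).pos
          positivity
        exact ⟨Int.emod_nonneg _ h1.ne', Int.emod_lt_of_pos _ h1⟩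
      · intro k j
        exact Int.dvd_self_sub_emod
    · rw [hT2, Fintype.mem_piFinset]
      intro k
      rw [Fintype.mem_piFinset]
      intro j
      rw [mem_range]
      exact quot_lt (mem_BXI.1 hc.1 k j).2
  · intro c hc d hd hcd
    rw [mem_coe, mem_filter] at hc hd
    simp only [Prod.mk.injEq] at hcd
    obtain ⟨e1, e2⟩ := hcd
    funext k j
    apply quot_inj (q := Q) (H := H) (mem_BXI.1 hc.1 k j).1 (mem_BXI.1 hd.1 k j).1
    · have h1 : (Q : ℤ) = ∏ l ∈ D, (l : ℤ) ^ 2 := by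
        rw [hQ]
        push_cast
        rfl
      rw [h1]
      apply Finset.prod_dvd_of_coprime
      · intro l hl l' hl' hne
        exact IsCoprime.pow (Nat.isCoprime_iff_coprime.mpr
          ((Nat.coprime_primes (hD l hl) (hD l' hl')).mpr hne))
      · intro l hl
        have h2 := congrFun (congrFun (congrFun e1 ⟨l, hl⟩) k) j
        exact Int.ModEq.dvd (Eq.symm h2)
    · exact congrFun (congrFun e2 k) j

theorem resl_ (h1 : S_CHI) (h2 : S_DIV) (h3 : S_LOCP) : S_RESL := by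
  classical
  intro r m E e hE j i i' hii W η hη
  have ha0 : ∀ j, E.a j ≠ 0 := by
    intro j h0
    apply hE.ha {j} (singleton_nonempty j)
    rw [prod_singleton, h0]
    exact ⟨0, by simp⟩
  obtain ⟨h, hco, hh⟩ := h1 r E.a hE.ha j
  obtain ⟨l₀, hl₀⟩ := h3 m e i i' hii
  obtain ⟨q, hq⟩ : ∃ q, q = 4 * ∏ j, (E.a j).natAbs := ⟨_, rfl⟩
  rw [← hq] at hco hh
  have hq1 : 1 ≤ q := by
    have : 0 < ∏ j, (E.a j).natAbs := Finset.prod_pos (fun j _ => Int.natAbs_pos.mpr (ha0 j))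
    omega
  obtain ⟨W', hW', hK⟩ := h2 q h hq1 hco (max W l₀) (2 * Real.log (2 / η))
  obtain ⟨D, hDdef⟩ : ∃ D, D = (Ioc (max W l₀) W').filter
    (fun l => l.Prime ∧ l % q = h % q) := ⟨_, rfl⟩
  rw [← hDdef] at hK
  have hD : ∀ l ∈ D, W < l ∧ l₀ ≤ l ∧ l ≤ W' ∧ l.Prime ∧ l % q = h % q := by
    intro l hl
    rw [hDdef, mem_filter, mem_Ioc] at hl
    obtain ⟨⟨a1, a2⟩, a3, a4⟩ := hl
    exact ⟨(le_max_left _ _).trans_lt a1, ((le_max_right _ _).trans_lt a1).le, a2, a3, a4⟩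
  obtain ⟨Q, hQ⟩ : ∃ Q, Q = ∏ l ∈ D, l ^ 2 := ⟨_, rfl⟩
  have hQ0 : 0 < Q := by
    rw [hQ]
    exact Finset.prod_pos (fun l hl => pow_pos (hD l hl).2.2.2.1.pos 2)
  obtain ⟨n, hn⟩ : ∃ n, n = ncI e := ⟨_, rfl⟩
  refine ⟨W', (le_max_left _ _).trans_lt hW', Q * n, ?_⟩
  intro H hH
  rw [← hn]
  have s1 : ((BXI e H).filter (fun c => ¬ ∃ l : ℕ, W < l ∧ l ≤ W' ∧ Flip E c j i i' l)).card ≤
      ((BXI e H).filter (fun c => ∀ l ∈ D, ¬ Dbl c i i' l)).card := by
    apply Finset.card_le_card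
    intro c hc
    rw [mem_filter] at hc ⊢
    refine ⟨hc.1, fun l hl hd => hc.2 ?_⟩
    obtain ⟨b1, b2, b3, b4, b5⟩ := hD l hl
    obtain ⟨b6, b7⟩ := hh l b5
    exact ⟨l, b1, b3, b4, b6, b7, hd⟩
  have s2 : ((BXI e H).filter (fun c => ∀ l ∈ D, ¬ Dbl c i i' l)).card ≤
      (∏ l ∈ D, ((Fintype.piFinset (fun k : Fin m => Fintype.piFinset (fun _ : Fin (e k + 2) =>
        Ico (0 : ℤ) ((l : ℤ) ^ 2)))).filter (fun c => ¬ Dbl c i i' l)).card) *
        (2 * H / Q + 1) ^ n := by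
    have s0 := count_crt e D (fun l hl => (hD l hl).2.2.2.1) (fun l c => ¬ Dbl c i i' l)
      (fun l _ c c' hcc hc hc' => hc (dbl_congr c' c i i' l (fun k j => by
        rw [← dvd_neg, neg_sub]; exact hcc k j) hc')) H
    rw [← hQ, ← hn] at s0
    convert s0
  have s3 : (∏ l ∈ D, (((Fintype.piFinset (fun k : Fin m => Fintype.piFinset
      (fun _ : Fin (e k + 2) => Ico (0 : ℤ) ((l : ℤ) ^ 2)))).filter
        (fun c => ¬ Dbl c i i' l)).card : ℝ)) ≤
      ∏ l ∈ D, (Real.exp (-(1 / (l : ℝ)) / 2) * ((l : ℝ) ^ 2) ^ n) := by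
    apply Finset.prod_le_prod
    · intro l _
      positivity
    · intro l hl
      obtain ⟨b1, b2, b3, b4, b5⟩ := hD l hl
      have c1 := hl₀ l b4 b2
      rw [← hn] at c1
      refine c1.trans ?_
      gcongr
      have c2 := Real.add_one_le_exp (-(1 / (l : ℝ)) / 2)
      refine le_trans (le_of_eq ?_) c2
      have c3 : (l : ℝ) ≠ 0 := by
        have := b4.pos
        positivity
      field_simp
      ring
  have s4 : ∏ l ∈ D, (Real.exp (-(1 / (l : ℝ)) / 2) * ((l : ℝ) ^ 2) ^ n) ≤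
      (η / 2) * (Q : ℝ) ^ n := by
    rw [Finset.prod_mul_distrib, ← Real.exp_sum, Finset.prod_pow]
    have c1 : ((Q : ℕ) : ℝ) = ∏ l ∈ D, (l : ℝ) ^ 2 := by
      rw [hQ]
      push_cast
      rfl
    rw [← c1]
    gcongr
    have c2 : ∑ l ∈ D, -(1 / (l : ℝ)) / 2 = -(∑ l ∈ D, 1 / (l : ℝ)) / 2 := by
      rw [← Finset.sum_div, Finset.sum_neg_distrib]
    rw [c2]
    calc Real.exp (-(∑ l ∈ D, 1 / (l : ℝ)) / 2) ≤ Real.exp (-Real.log (2 / η)) := by
          apply Real.exp_le_exp.mpr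
          linarith
      _ = η / 2 := by
          rw [← Real.log_inv, Real.exp_log (by positivity), inv_div]
  have s5 : (Q : ℝ) * ((2 * H / Q + 1 : ℕ) : ℝ) ≤ ((2 * H + 1 : ℕ) : ℝ) + Q := by
    have c1 : Q * (2 * H / Q + 1) ≤ 2 * H + 1 + Q := by
      have := Nat.mul_div_le (2 * H) Q
      rw [mul_add, mul_one]
      omega
    exact_mod_cast c1
  have s6 : (((2 * H + 1 : ℕ) : ℝ) + Q) ^ n ≤ 2 * ((2 * H + 1 : ℕ) : ℝ) ^ n := by
    obtain ⟨y, hy⟩ : ∃ y : ℝ, y = ((2 * H + 1 : ℕ) : ℝ) := ⟨_, rfl⟩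
    rw [← hy]
    have hy0 : 0 < y := by rw [hy]; positivity
    have c1 : y + Q = y * (Q / y + 1) := by
      field_simp
      ring
    have c2 : (n : ℝ) * (Q / y) ≤ 1 / 2 := by
      rw [← mul_div_assoc, div_le_iff₀ hy0]
      have c3 : ((Q * n : ℕ) : ℝ) ≤ H := by exact_mod_cast hH
      push_cast at c3
      rw [hy]
      push_cast
      linarith
    have c4 : (Q / y + 1) ^ n ≤ 2 := by
      calc (Q / y + 1) ^ n ≤ (Real.exp (Q / y)) ^ n := by
            gcongr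
            exact Real.add_one_le_exp _
        _ = Real.exp (n * (Q / y)) := by rw [← Real.exp_nat_mul]
        _ ≤ Real.exp (1 / 2) := Real.exp_le_exp.mpr c2
        _ ≤ 2 := by
            have d1 : Real.exp (1 / 2) ^ 2 = Real.exp 1 := by
              rw [← Real.exp_nat_mul]
              norm_num
            have d2 := Real.exp_one_lt_d9
            have d3 := Real.exp_pos (1 / 2)
            nlinarith
    rw [c1, mul_pow]
    calc y ^ n * (Q / y + 1) ^ n ≤ y ^ n * 2 := by gcongr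
      _ = 2 * y ^ n := by ring
  have s7 : (((BXI e H).filter (fun c => ¬ ∃ l : ℕ, W < l ∧ l ≤ W' ∧ Flip E c j i i' l)).card : ℝ) ≤
      ((∏ l ∈ D, ((Fintype.piFinset (fun k : Fin m => Fintype.piFinset (fun _ : Fin (e k + 2) =>
        Ico (0 : ℤ) ((l : ℤ) ^ 2)))).filter (fun c => ¬ Dbl c i i' l)).card) *
        (2 * H / Q + 1) ^ n : ℕ) := Nat.cast_le.mpr (s1.trans s2)
  refine s7.trans ?_
  rw [Nat.cast_mul, Nat.cast_prod, Nat.cast_pow]
  calc _ ≤ ((η / 2) * (Q : ℝ) ^ n) * ((2 * H / Q + 1 : ℕ) : ℝ) ^ n := by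
        gcongr
        exact s3.trans s4
    _ = (η / 2) * ((Q : ℝ) * ((2 * H / Q + 1 : ℕ) : ℝ)) ^ n := by
        rw [mul_pow]
        ring
    _ ≤ (η / 2) * (((2 * H + 1 : ℕ) : ℝ) + Q) ^ n := by gcongr
    _ ≤ (η / 2) * (2 * ((2 * H + 1 : ℕ) : ℝ) ^ n) := by gcongr
    _ = η * ((2 * H + 1 : ℕ) : ℝ) ^ n := by ring

end Pool.Agent.N451.GC
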